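import Pool.Agent.Lib.MP_35885f_cl.Stat

/-!
# Basis number and clique separators: row EAR
-/

open Finset

namespace Pool.MP_35885f

open scoped Classical

namespace EarAux

variable {V : Type} [Fintype V]

lemma bd_zero (v : V) : bd (0 : Sym2 V → ZMod 2) v = 0 := by
  simp [bd]

lemma bd_sgl {a b : V} (hab : a ≠ b) (v : V) :
    bd (sgl s(a, b)) v = (if v = a then 1 else 0) + if v = b then 1 else 0 := by
  unfold bd sgl
  by_cases h1 : v = a
  · subst h1
    rw [Finset.sum_eq_single b]
    · simp [hab]
    · intro w _ hw
      rw [Pi.single_eq_of_ne]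
      intro h
      rw [Sym2.eq_iff] at h
      rcases h with ⟨_, h⟩ | ⟨h, _⟩
      · exact hw h
      · exact hab h
    · intro h
      exact absurd (Finset.mem_univ _) h
  · by_cases h2 : v = b
    · subst h2
      rw [Finset.sum_eq_single a]
      · rw [Sym2.eq_swap]
        simp [h1]
      · intro w _ hw
        rw [Pi.single_eq_of_ne]
        intro h
        rw [Sym2.eq_iff] at h
        rcases h with ⟨h, _⟩ | ⟨_, h⟩
        · exact h1 h
        · exact hw h
      · intro h
        exact absurd (Finset.mem_univ _) h
    · rw [if_neg h1, if_neg h2, add_zero]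
      refine Finset.sum_eq_zero fun w _ => ?_
      rw [Pi.single_eq_of_ne]
      intro h
      rw [Sym2.eq_iff] at h
      rcases h with ⟨h, _⟩ | ⟨h, _⟩
      · exact h1 h
      · exact h2 h

/-- The graph of the support of a vector. -/
def supG (f : Sym2 V → ZMod 2) : SimpleGraph V where
  Adj a b := a ≠ b ∧ f s(a, b) ≠ 0
  symm := ⟨fun a b h => ⟨h.1.symm, by rw [Sym2.eq_swap]; exact h.2⟩⟩
  loopless := ⟨fun _ h => h.1 rfl⟩

/-- a vector inside the support of `f` with two odd vertices, the ends of a walk -/
lemma exists_path (f : Sym2 V → ZMod 2) {u w : V} (p : (supG f).Walk u w) :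
    ∃ g : Sym2 V → ZMod 2, (∀ e, g e ≠ 0 → f e ≠ 0) ∧
      ∀ v, bd g v = (if v = u then 1 else 0) + if v = w then 1 else 0 := by
  induction p with
  | nil =>
    refine ⟨0, fun e he => absurd rfl he, fun v => ?_⟩
    rw [bd_zero]
    exact (CharTwo.add_self_eq_zero _).symm
  | @cons a b c h p ih =>
    obtain ⟨g, hg1, hg2⟩ := ih
    refine ⟨sgl s(a, b) + g, fun e he => ?_, fun v => ?_⟩
    · by_cases hge : g e = 0
      · rw [Pi.add_apply, hge, add_zero] at he
        by_cases heq : e = s(a, b)
        · rw [heq]
          exact h.2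
        · exfalso
          apply he
          unfold sgl
          rw [Pi.single_eq_of_ne heq]
      · exact hg1 e hge
    · rw [bd_add, bd_sgl h.1, hg2 v]
      have h2 : ∀ x y z : ZMod 2, x + y + (y + z) = x + z := by decide
      exact h2 _ _ _

/-- every component of the support with an odd vertex has another one -/
lemma exists_other (f : Sym2 V → ZMod 2) (hf : ∀ v, f s(v, v) = 0) {u : V} (hu : bd f u ≠ 0) :
    ∃ w, w ≠ u ∧ bd f w ≠ 0 ∧ (supG f).Reachable u w := by
  by_contra hcon
  push Not at hcon
  -- restriction of f to the component of u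
  let fC : Sym2 V → ZMod 2 := fun e => if ∀ v ∈ e, (supG f).Reachable u v then f e else 0
  have hdiag : ∀ v, fC s(v, v) = 0 := by
    intro v
    change (if ∀ x ∈ s(v, v), (supG f).Reachable u x then f s(v, v) else 0) = 0
    rw [hf v]
    simp
  have hin : ∀ v, (supG f).Reachable u v → bd fC v = bd f v := by
    intro v hv
    unfold bd
    refine Finset.sum_congr rfl fun w _ => ?_
    change (if ∀ x ∈ s(v, w), (supG f).Reachable u x then f s(v, w) else 0) = f s(v, w)
    by_cases hfw : f s(v, w) = 0
    · rw [hfw]
      simp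
    · rw [if_pos]
      intro x hx
      rw [Sym2.mem_iff] at hx
      rcases hx with hx | hx
      · rw [hx]; exact hv
      · rw [hx]
        by_cases hvw : v = w
        · rw [← hvw]; exact hv
        · exact hv.trans (SimpleGraph.Adj.reachable (show (supG f).Adj v w from ⟨hvw, hfw⟩))
  have hout : ∀ v, ¬ (supG f).Reachable u v → bd fC v = 0 := by
    intro v hv
    unfold bd
    refine Finset.sum_eq_zero fun w _ => ?_
    change (if ∀ x ∈ s(v, w), (supG f).Reachable u x then f s(v, w) else 0) = 0
    rw [if_neg]
    intro h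
    exact hv (h v (Sym2.mem_mk_left v w))
  have hsum := sum_bd hdiag
  rw [Finset.sum_eq_single u] at hsum
  · rw [hin u (SimpleGraph.Reachable.refl u)] at hsum
    exact hu hsum
  · intro w _ hw
    by_cases hr : (supG f).Reachable u w
    · rw [hin w hr]
      by_contra h0
      exact hcon w hw h0 hr
    · exact hout w hr
  · intro h
    exact absurd (Finset.mem_univ _) h

end EarAux

open EarAux

theorem ear : EAR := by
  intro V _ f
  -- induction on the number of odd vertices
  suffices H : ∀ (n : ℕ) (f : Sym2 V → ZMod 2), (univ.filter fun v => bd f v ≠ 0).card = n →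
      (∀ v, f s(v, v) = 0) →
      ∃ (g₀ : Sym2 V → ZMod 2) (L : List ((Sym2 V → ZMod 2) × V × V)),
        f = g₀ + (L.map Prod.fst).sum ∧ (∀ v, bd g₀ v = 0) ∧
        (∀ p ∈ L, p.2.1 ≠ p.2.2 ∧ bd f p.2.1 ≠ 0 ∧ bd f p.2.2 ≠ 0 ∧
          ∀ v, bd p.1 v = (if v = p.2.1 then 1 else 0) + if v = p.2.2 then 1 else 0) ∧
        ∀ e, (if g₀ e ≠ 0 then 1 else 0) + cnt e (L.map Prod.fst) ≤ if f e ≠ 0 then 1 else 0 from
    fun hf => H _ f rfl hf
  intro n
  induction n using Nat.strong_induction_on with
  | _ n ih =>
    intro f hn hf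
    by_cases hall : ∀ v, bd f v = 0
    · refine ⟨f, [], by simp, hall, by simp, fun e => ?_⟩
      simp [cnt]
    · push Not at hall
      obtain ⟨u, hu⟩ := hall
      obtain ⟨w, hwu, hw, hr⟩ := exists_other f hf hu
      obtain ⟨p⟩ := hr
      obtain ⟨g, hg1, hg2⟩ := exists_path f p
      have hbd : ∀ v, bd (f + g) v = bd f v + ((if v = u then 1 else 0) + if v = w then 1 else 0) :=
        fun v => by rw [bd_add, hg2 v]
      have hbu : bd (f + g) u = 0 := by
        rw [hbd u, if_pos rfl, if_neg hwu.symm]
        have h2 : ∀ x : ZMod 2, x ≠ 0 → x + (1 + 0) = 0 := by decide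
        exact h2 _ hu
      have hbw : bd (f + g) w = 0 := by
        rw [hbd w, if_neg hwu, if_pos rfl]
        have h2 : ∀ x : ZMod 2, x ≠ 0 → x + (0 + 1) = 0 := by decide
        exact h2 _ hw
      have hbo : ∀ v, v ≠ u → v ≠ w → bd (f + g) v = bd f v := by
        intro v h1 h2
        rw [hbd v, if_neg h1, if_neg h2, add_zero, add_zero]
      have hsub : ∀ v, bd (f + g) v ≠ 0 → bd f v ≠ 0 := by
        intro v hv
        by_cases h1 : v = u
        · rw [h1] at hv; exact absurd hbu hv
        · by_cases h2 : v = w
          · rw [h2] at hv; exact absurd hbw hv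
          · rw [hbo v h1 h2] at hv; exact hv
      have hlt : (univ.filter fun v => bd (f + g) v ≠ 0).card < n := by
        rw [← hn]
        apply Finset.card_lt_card
        rw [Finset.ssubset_iff_of_subset]
        · refine ⟨u, ?_, ?_⟩
          · simp [hu]
          · simp [hbu]
        · intro v hv
          rw [Finset.mem_filter] at hv ⊢
          exact ⟨hv.1, hsub v hv.2⟩
      have hgd : ∀ v, g s(v, v) = 0 := by
        intro v
        by_contra h
        exact hg1 _ h (hf v)
      have hfd : ∀ v, (f + g) s(v, v) = 0 := by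
        intro v
        rw [Pi.add_apply, hf v, hgd v, add_zero]
      obtain ⟨g₀, L, h1, h2, h3, h4⟩ := ih _ hlt (f + g) rfl hfd
      refine ⟨g₀, (g, u, w) :: L, ?_, h2, ?_, fun e => ?_⟩
      · have h5 : f = (f + g) + g := by
          funext e
          rw [Pi.add_apply, Pi.add_apply, add_assoc, CharTwo.add_self_eq_zero, add_zero]
        rw [List.map_cons, List.sum_cons]
        conv_lhs => rw [h5, h1]
        abel
      · intro q hq
        rw [List.mem_cons] at hq
        rcases hq with hq | hq
        · rw [hq]
          exact ⟨hwu.symm, hu, hw, hg2⟩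
        · obtain ⟨h5, h6, h7, h8⟩ := h3 q hq
          exact ⟨h5, hsub _ h6, hsub _ h7, h8⟩
      · have h5 := h4 e
        have h6 : cnt e (((g, u, w) :: L).map Prod.fst) =
            cnt e (L.map Prod.fst) + if g e ≠ 0 then 1 else 0 := by
          unfold cnt
          rw [List.map_cons, List.countP_cons]
          simp
        rw [h6]
        by_cases hge : g e = 0
        · rw [Pi.add_apply, hge, add_zero] at h5
          rw [if_neg (not_not.mpr hge), add_zero]
          exact h5
        · have hfe := hg1 e hge
          have h7 : (f + g) e = 0 := by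
            rw [Pi.add_apply]
            have h8 : ∀ x y : ZMod 2, x ≠ 0 → y ≠ 0 → x + y = 0 := by decide
            exact h8 _ _ hfe hge
          rw [if_neg (not_not.mpr h7)] at h5
          rw [if_pos hge, if_pos hfe]
          omega

end Pool.MP_35885f
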