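import Pool.Agent.Lib.MP_35885f_cl.Stat

/-!
# Row PEO: the frame of a chordal graph, with triangles
-/

open Finset

namespace Pool.MP_35885f

open scoped Classical

/-- The triangle on `v, a, b`. -/
noncomputable def trg {V : Type} (v a b : V) : Sym2 V → ZMod 2 :=
  sgl s(v, a) + sgl s(v, b) + sgl s(a, b)

/-- The triangles on `v` and two consecutive members of a list. -/
noncomputable def fan {V : Type} (v : V) : List V → List (Sym2 V → ZMod 2)
  | [] => []
  | [_] => []
  | a :: b :: L => trg v a b :: fan v (b :: L)

/-- The set of these triangles. -/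
noncomputable def fanSet {V : Type} (v : V) (L : List V) : Finset (Sym2 V → ZMod 2) :=
  (fan v L).toFinset

lemma mem_fanSet {V : Type} {v : V} {L : List V} {t : Sym2 V → ZMod 2} :
    t ∈ fanSet v L ↔ t ∈ fan v L := List.mem_toFinset

lemma sgl_apply {V : Type} (e e' : Sym2 V) : sgl e e' = if e' = e then 1 else 0 := by
  unfold sgl
  rw [Pi.single_apply]

lemma bd_sgl {V : Type} [Fintype V] {a b : V} (h : a ≠ b) (w : V) :
    bd (sgl s(a, b)) w = (if w = a then 1 else 0) + if w = b then 1 else 0 := by
  unfold bd
  simp only [sgl_apply]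
  by_cases h1 : w = a
  · subst h1
    rw [if_pos rfl, if_neg h, add_zero, Finset.sum_eq_single b]
    · simp
    · intro x _ hx
      rw [if_neg]
      intro h2
      rw [Sym2.eq_iff] at h2
      rcases h2 with h2 | h2
      · exact hx h2.2
      · exact h h2.1
    · intro h2; exact absurd (Finset.mem_univ _) h2
  · by_cases h2 : w = b
    · subst h2
      rw [if_neg h1, if_pos rfl, zero_add, Finset.sum_eq_single a]
      · rw [if_pos Sym2.eq_swap]
      · intro x _ hx
        rw [if_neg]
        intro h3
        rw [Sym2.eq_iff] at h3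
        rcases h3 with h3 | h3
        · exact h h3.1.symm
        · exact hx h3.2
      · intro h3; exact absurd (Finset.mem_univ _) h3
    · rw [if_neg h1, if_neg h2, add_zero]
      refine Finset.sum_eq_zero fun x _ => ?_
      rw [if_neg]
      intro h3
      rw [Sym2.eq_iff] at h3
      rcases h3 with h3 | h3
      · exact h1 h3.1
      · exact h2 h3.1

lemma bd_trg {V : Type} [Fintype V] {v a b : V} (h1 : v ≠ a) (h2 : v ≠ b) (h3 : a ≠ b) (w : V) :
    bd (trg v a b) w = 0 := by
  unfold trg
  rw [bd_add, bd_add, bd_sgl h1, bd_sgl h2, bd_sgl h3]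
  generalize (if w = v then (1 : ZMod 2) else 0) = x
  generalize (if w = a then (1 : ZMod 2) else 0) = y
  generalize (if w = b then (1 : ZMod 2) else 0) = z
  revert x y z
  decide

lemma trg_mem {V : Type} [Fintype V] {H : SimpleGraph V} {v a b : V} (h1 : H.Adj v a)
    (h2 : H.Adj v b) (h3 : H.Adj a b) : trg v a b ∈ cycleSpace H := by
  rw [mem_cycleSpace]
  refine ⟨fun e he => ?_, bd_trg h1.ne h2.ne h3.ne⟩
  unfold trg
  rw [Pi.add_apply, Pi.add_apply, sgl_apply, sgl_apply, sgl_apply, if_neg, if_neg, if_neg]
  · simp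
  · rintro rfl; exact he h3
  · rintro rfl; exact he h2
  · rintro rfl; exact he h1

lemma mem_fan {V : Type} (v : V) : ∀ (L : List V), L.Nodup → ∀ t ∈ fan v L,
    ∃ a b, a ∈ L ∧ b ∈ L ∧ a ≠ b ∧ t = trg v a b
  | [], _, t, ht => by simp [fan] at ht
  | [_], _, t, ht => by simp [fan] at ht
  | a :: b :: L, hL, t, ht => by
    rw [fan, List.mem_cons] at ht
    rcases ht with ht | ht
    · refine ⟨a, b, by simp, by simp, ?_, ht⟩
      rintro rfl
      simp at hL
    · obtain ⟨a', b', h1, h2, h3, h4⟩ := mem_fan v (b :: L) (List.nodup_cons.1 hL).2 t ht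
      exact ⟨a', b', List.mem_cons_of_mem _ h1, List.mem_cons_of_mem _ h2, h3, h4⟩

/-- value of a triangle at an edge at `v` -/
lemma trg_apply {V : Type} {v a b u : V} (h1 : v ≠ a) (h2 : v ≠ b) :
    trg v a b s(v, u) = (if u = a then 1 else 0) + if u = b then 1 else 0 := by
  unfold trg
  rw [Pi.add_apply, Pi.add_apply, sgl_apply, sgl_apply, sgl_apply]
  rw [if_neg (c := s(v, u) = s(a, b)), add_zero]
  · congr 1
    · simp only [Sym2.congr_right]
    · simp only [Sym2.congr_right]
  · intro h
    rw [Sym2.eq_iff] at h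
    rcases h with h | h
    · exact h1 h.1
    · exact h2 h.1

lemma fan_count {V : Type} (v u : V) : ∀ (L : List V), v ∉ L →
    (fan v L).countP (fun t => decide (t s(v, u) ≠ 0)) + (if L.head? = some u then 1 else 0) ≤
      2 * L.count u
  | [], _ => by simp [fan]
  | [a], _ => by
    rw [fan]
    by_cases h : a = u
    · subst h; simp
    · simp [h]
  | a :: b :: L, hv => by
    have ih := fan_count v u (b :: L) (fun h => hv (List.mem_cons_of_mem _ h))
    have h1 : v ≠ a := fun h => hv (by simp [h])
    have h2 : v ≠ b := fun h => hv (by simp [h])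
    rw [fan, List.countP_cons, List.count_cons (b := a)]
    simp only [List.head?_cons, Option.some.injEq] at ih ⊢
    rw [trg_apply h1 h2]
    by_cases ha : a = u
    · by_cases hb : b = u
      · subst ha
        subst hb
        simp at ih ⊢
        split_ifs
        · omega
        · omega
      · have hb' : u ≠ b := fun h => hb h.symm
        subst ha
        simp [hb, hb'] at ih ⊢
        omega
    · by_cases hb : b = u
      · have ha' : u ≠ a := fun h => ha h.symm
        subst hb
        simp [ha, ha'] at ih ⊢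
        omega
      · have hb' : u ≠ b := fun h => hb h.symm
        have ha' : u ≠ a := fun h => ha h.symm
        simp [ha, ha', hb, hb'] at ih ⊢
        omega

lemma ply_fan {V : Type} (v u : V) (L : List V) (hv : v ∉ L) (hL : L.Nodup) :
    ply s(v, u) (fanSet v L) ≤ 2 := by
  have h1 := fan_count v u L hv
  have h2 : L.count u ≤ 1 := List.nodup_iff_count_le_one.1 hL u
  have h3 : ply s(v, u) (fanSet v L) ≤
      (fan v L).countP (fun t => decide (t s(v, u) ≠ 0)) := by
    unfold ply
    rw [List.countP_eq_length_filter]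
    refine le_trans (Finset.card_le_card ?_) (List.toFinset_card_le _)
    intro t ht
    rw [Finset.mem_filter, mem_fanSet] at ht
    rw [List.mem_toFinset, List.mem_filter]
    exact ⟨ht.1, by simpa using ht.2⟩
  omega

lemma fan_span {V : Type} (v : V) : ∀ (L : List V) (c : V → ZMod 2), v ∉ L → L.Nodup →
    (L.map c).sum = 0 → ∃ g ∈ Submodule.span (ZMod 2) {t | t ∈ fan v L},
      ∀ u, g s(v, u) = if u ∈ L then c u else 0
  | [], c, _, _, _ => ⟨0, Submodule.zero_mem _, by simp⟩
  | [a], c, _, _, h => by
    refine ⟨0, Submodule.zero_mem _, fun u => ?_⟩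
    simp only [List.map_cons, List.map_nil, List.sum_cons, List.sum_nil, add_zero] at h
    by_cases hu : u = a
    · subst hu; simp [h]
    · simp [hu]
  | a :: b :: L, c, hv, hL, h => by
    have h1 : v ≠ a := fun h => hv (by simp [h])
    have h2 : v ≠ b := fun h => hv (by simp [h])
    have hL2 := List.nodup_cons.1 hL
    have hL3 := List.nodup_cons.1 hL2.2
    have hab : a ≠ b := fun h => hL2.1 (by simp [h])
    obtain ⟨g, hg, hgu⟩ := fan_span v (b :: L) (Function.update c b (c b + c a))
      (fun h => hv (List.mem_cons_of_mem _ h)) hL2.2 (by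
        rw [List.map_cons, List.sum_cons, Function.update_self]
        have h3 : L.map (Function.update c b (c b + c a)) = L.map c := by
          refine List.map_congr_left fun x hx => ?_
          rw [Function.update_of_ne]
          rintro rfl
          exact hL3.1 hx
        rw [h3]
        rw [List.map_cons, List.map_cons, List.sum_cons, List.sum_cons] at h
        rw [← h]
        ring)
    refine ⟨g + c a • trg v a b, ?_, fun u => ?_⟩
    · refine Submodule.add_mem _ ?_ ?_
      · refine Submodule.span_mono ?_ hg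
        intro t ht
        show t ∈ fan v (a :: b :: L)
        rw [fan]
        exact List.mem_cons_of_mem _ ht
      · refine Submodule.smul_mem _ _ (Submodule.subset_span ?_)
        show trg v a b ∈ fan v (a :: b :: L)
        rw [fan]
        exact List.mem_cons_self
    · rw [Pi.add_apply, Pi.smul_apply, smul_eq_mul, hgu, trg_apply h1 h2]
      by_cases hua : u = a
      · subst hua
        rw [if_neg hL2.1, if_pos rfl, if_neg hab]
        simp
      · by_cases hub : u = b
        · subst hub
          rw [if_pos (by simp), Function.update_self, if_neg hua, if_pos rfl, if_pos (by simp)]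
          rw [zero_add, mul_one, add_assoc, CharTwo.add_self_eq_zero, add_zero]
        · rw [if_neg hua, if_neg hub, Function.update_of_ne hub]
          simp [hua, hub]

theorem peo : PEO := by
  intro V _ G r hr
  have hKin : ∀ v : V, ∀ u, u ∈ {u | G.Adj v u ∧ r v < r u} ↔ (G.Adj v u ∧ r v < r u) :=
    fun v u => Iff.rfl
  let F : Frame G :=
    { ι := V
      fin := inferInstance
      ρ := r
      inj := hr.1
      bag := fun v => {u | u = v ∨ (G.Adj v u ∧ r v < r u)}
      K := fun v => {u | G.Adj v u ∧ r v < r u}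
      sub := fun v u hu => Or.inr hu
      clique := fun x u v hu hv huv => hr.2 x u v hu.1 hv.1 hu.2 hv.2 huv
      cover := by
        intro u v huv
        rcases lt_trichotomy (r u) (r v) with h | h | h
        · exact ⟨u, Or.inl rfl, Or.inr ⟨huv, h⟩, fun h2 => h2.1.1.ne rfl⟩
        · exact absurd (hr.1 h) huv.ne
        · exact ⟨v, Or.inr ⟨huv.symm, h⟩, Or.inl rfl, fun h2 => h2.2.1.ne rfl⟩
      up := by
        intro x s v hv hv2 hvs
        rcases hv with rfl | hv
        · rcases hvs with rfl | hvs
          · exact le_refl _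
          · exact hvs.2.le
        · exact absurd hv hv2 }
  let N : V → List V := fun v => (univ.filter fun u => G.Adj v u ∧ r v < r u).toList
  have hN : ∀ v u, u ∈ N v ↔ (G.Adj v u ∧ r v < r u) := by
    intro v u
    simp [N]
  have hNd : ∀ v, (N v).Nodup := fun v => Finset.nodup_toList _
  have hvN : ∀ v, v ∉ N v := fun v h => ((hN v v).1 h).1.ne rfl
  have hmem : ∀ v, ∀ f ∈ fanSet v (N v), f ∈ cycleSpace (piece G (F.bag v)) := by
    intro v f hf
    rw [mem_fanSet] at hf
    obtain ⟨a, b, ha, hb, hab, rfl⟩ := mem_fan v (N v) (hNd v) f hf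
    rw [hN] at ha hb
    exact trg_mem ⟨ha.1, Or.inl rfl, Or.inr ha⟩ ⟨hb.1, Or.inl rfl, Or.inr hb⟩
      ⟨hr.2 v a b ha.1 hb.1 ha.2 hb.2 hab, Or.inr ha, Or.inr hb⟩
  refine ⟨F, fun v => fanSet v (N v), hmem, ?_, ?_⟩
  · intro v f hf
    have hf' := mem_cycleSpace.1 hf
    have hz : ∀ u, u ∉ N v → f s(v, u) = 0 := by
      intro u hu
      refine hf'.1 _ fun h => ?_
      have h2 : (piece G (F.bag v)).Adj v u := h
      rcases h2.2.2 with h3 | h3
      · exact h2.1.ne h3.symm
      · exact hu ((hN v u).2 h3)
    obtain ⟨g, hg, hgu⟩ := fan_span v (N v) (fun u => f s(v, u)) (hvN v) (hNd v) (by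
      have h1 := hf'.2 v
      unfold bd at h1
      rw [← h1]
      show ((univ.filter fun u => G.Adj v u ∧ r v < r u).toList.map fun u => f s(v, u)).sum = _
      rw [Finset.sum_map_toList, Finset.sum_filter]
      refine Finset.sum_congr rfl fun u _ => ?_
      split_ifs with h
      · rfl
      · exact (hz u fun h2 => h ((hN v u).1 h2)).symm)
    have hset : (fanSet v (N v) : Set (Sym2 V → ZMod 2)) = {t | t ∈ fan v (N v)} :=
      Set.ext fun t => mem_fanSet
    show f ∈ Submodule.span (ZMod 2) (fanSet v (N v) : Set (Sym2 V → ZMod 2)) ⊔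
      cycleSpace (piece G (F.K v))
    rw [hset]
    have hgc : g ∈ cycleSpace (piece G (F.bag v)) := by
      refine (Submodule.span_le.2 ?_) hg
      intro t ht
      exact hmem v t (mem_fanSet.2 ht)
    have hfg : f - g ∈ cycleSpace (piece G (F.bag v)) := Submodule.sub_mem _ hf hgc
    have hfg' := mem_cycleSpace.1 hfg
    have hv0 : ∀ u, (f - g) s(v, u) = 0 := by
      intro u
      rw [Pi.sub_apply, hgu]
      split_ifs with h
      · exact sub_self _
      · rw [hz u h, sub_zero]
    refine Submodule.mem_sup.2 ⟨g, hg, f - g, ?_, by abel⟩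
    rw [mem_cycleSpace]
    refine ⟨fun e he => ?_, hfg'.2⟩
    induction e using Sym2.ind with
    | _ a b =>
      by_cases hab : s(a, b) ∈ (piece G (F.bag v)).edgeSet
      · have h2 : (piece G (F.bag v)).Adj a b := hab
        rcases h2.2.1 with rfl | h3
        · exact hv0 b
        · rcases h2.2.2 with rfl | h4
          · rw [Sym2.eq_swap]; exact hv0 a
          · exact absurd (show (piece G (F.K v)).Adj a b from ⟨h2.1, h3, h4⟩) he
      · exact hfg'.1 _ hab
  · intro v e he
    obtain ⟨h1, h2, h3⟩ := he
    have h4 : ∃ u, e = s(v, u) := by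
      push Not at h3
      obtain ⟨w, hw, hwK⟩ := h3
      rcases h2 w hw with rfl | h5
      · obtain ⟨u, rfl⟩ := Sym2.mem_iff_exists.1 hw
        exact ⟨u, rfl⟩
      · exact absurd h5 hwK
    obtain ⟨u, rfl⟩ := h4
    exact ply_fan v u (N v) (hvN v) (hNd v)

end Pool.MP_35885f
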