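import Pool.Agent.Lib.MP_35885f_cl.Stat

/-!
# Row PWP: a part with few vertices has small basis number
-/

open Finset

namespace Pool.MP_35885f

theorem pwp : PWP := by
  classical
  intro V _ G s k hs
  let num : Sym2 V ≃ Fin (Fintype.card (Sym2 V)) := Fintype.equivFin _
  refine basisNumber_le_of_order (piece G {v | v ∈ s}) (fun e => (num e : ℕ)) ?_ _ ?_
  · intro e e' h
    exact num.injective (Fin.ext h)
  · intro e he
    refine ⟨s, hs, ?_, ?_⟩
    · induction e using Sym2.ind with
      | _ u v =>
        rw [SimpleGraph.mem_edgeSet] at he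
        exact ⟨u, he.2.1⟩
    · rintro v ⟨w, hw, -⟩ -
      exact hw.2.1

end Pool.MP_35885f
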