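import Pool.Agent.Lib.MP_35885f_cl.Stat
import Pool.Agent.Lib.MP_35885f_co.Tree

/-!
# Row TDF: the frame of a tree decomposition with clique adhesions
-/

open Finset

namespace Pool.MP_35885f

lemma parent_adj' {ι : Type} {T : SimpleGraph ι} {r y : ι} (h : parent T r y ≠ y) :
    T.Adj (parent T r y) y := by
  by_cases hex : ∃ x, T.Adj x y ∧ T.dist r y = T.dist r x + 1
  · rw [parent, dif_pos hex]; exact hex.choose_spec.1
  · rw [parent, dif_neg hex] at h; exact absurd rfl h

/-- A rooted order of the nodes of a tree decomposition, with adjacency. -/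
theorem exists_rooting_adj {V : Type} {G : SimpleGraph V} (D : TreeDecomp G) :
    ∃ (par : D.ι → D.ι) (ρ : D.ι → ℕ), Function.Injective ρ ∧
      (∀ s, par s ≠ s → ρ s < ρ (par s)) ∧
      (∀ s, par s ≠ s → D.T.Adj (par s) s) ∧
      ∀ v s s', v ∈ D.bag s → v ∈ D.bag s' → ρ s < ρ s' → v ∈ D.bag (par s) ∧ par s ≠ s := by
  classical
  have := D.fin
  have : Fintype D.ι := Fintype.ofFinite _
  have hT := D.isTree
  obtain ⟨r⟩ := hT.connected.nonempty
  set M := univ.sup (fun s => D.T.dist r s) with hM
  have hMle : ∀ s, D.T.dist r s ≤ M := fun s => Finset.le_sup (f := fun s => D.T.dist r s) (mem_univ s)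
  set N := Fintype.card D.ι with hN
  set idx := Fintype.equivFin D.ι with hidx
  set ρ : D.ι → ℕ := fun s => (M - D.T.dist r s) * N + idx s with hρ
  have hlt : ∀ s s', D.T.dist r s' < D.T.dist r s → ρ s < ρ s' := by
    intro s s' h
    have h1 := (idx s).2
    have h2 := hMle s
    have h3 : M - D.T.dist r s + 1 ≤ M - D.T.dist r s' := by omega
    calc ρ s < (M - D.T.dist r s) * N + N := by simp only [hρ]; omega
      _ = (M - D.T.dist r s + 1) * N := by ring
      _ ≤ (M - D.T.dist r s') * N := Nat.mul_le_mul_right _ h3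
      _ ≤ ρ s' := Nat.le_add_right _ _
  refine ⟨parent D.T r, ρ, ?_, ?_, fun s hs => parent_adj' hs, ?_⟩
  · intro s s' h
    rcases lt_trichotomy (D.T.dist r s) (D.T.dist r s') with h1 | h1 | h1
    · exact absurd h (hlt s' s h1).ne'
    · simp only [hρ, h1] at h
      have : idx s = idx s' := Fin.ext (by omega)
      exact idx.injective this
    · exact absurd h (hlt s s' h1).ne
  · intro s hs
    have := parent_dist hs
    exact hlt _ _ (by omega)
  · intro v s s' hs hs' hlt'
    have hmono : ∀ x, ρ x ≤ ρ (parent D.T r x) := by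
      intro x
      by_cases h : parent D.T r x = x
      · rw [h]
      · have := parent_dist h
        exact (hlt _ _ (by omega)).le
    have hmono' : ∀ n x, ρ x ≤ ρ ((parent D.T r)^[n] x) := by
      intro n
      induction n with
      | zero => intro x; exact le_rfl
      | succ n ih => intro x; rw [Function.iterate_succ_apply]; exact (hmono x).trans (ih _)
    set S : Set {x | v ∈ D.bag x} := {x | ∃ n, (parent D.T r)^[n] x.1 = s} with hS
    obtain ⟨w⟩ := (D.conn v).preconnected ⟨s, hs⟩ ⟨s', hs'⟩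
    have h1 : (⟨s, hs⟩ : {x | v ∈ D.bag x}) ∈ S := ⟨0, rfl⟩
    have h2 : (⟨s', hs'⟩ : {x | v ∈ D.bag x}) ∉ S := by
      rintro ⟨n, hn⟩
      have := hmono' n s'
      simp only at hn
      rw [hn] at this
      omega
    obtain ⟨d, -, hd1, hd2⟩ := w.exists_boundary_dart S h1 h2
    have hadj : D.T.Adj d.fst.1 d.snd.1 := d.adj
    obtain ⟨n, hn⟩ := hd1
    rcases parent_adj hT r hadj with h | h
    · exfalso
      apply hd2
      refine ⟨n + 1, ?_⟩
      rw [Function.iterate_succ_apply, h]; exact hn
    · cases n with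
      | zero =>
        simp only [Function.iterate_zero, id_eq] at hn
        rw [← hn, h]
        refine ⟨d.snd.2, ?_⟩
        intro h3
        exact hadj.ne h3.symm
      | succ n =>
        exfalso
        apply hd2
        refine ⟨n, ?_⟩
        rw [Function.iterate_succ_apply, h] at hn; exact hn

theorem tdf : TDF := by
  classical
  intro V _ G D hcl
  obtain ⟨par, ρ, hinj, hlt, hadj, hup⟩ := exists_rooting_adj D
  have hf := D.fin
  have hfin : Fintype D.ι := Fintype.ofFinite _
  refine ⟨{ ι := D.ι, fin := hfin, ρ := ρ, inj := hinj, bag := fun x => {v | v ∈ D.bag x},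
            K := fun x => {v | v ∈ D.bag x ∧ v ∈ D.bag (par x) ∧ par x ≠ x},
            sub := fun x v hv => hv.1, clique := ?_, cover := ?_, up := ?_ }, fun x => ⟨x, rfl⟩⟩
  · rintro x u v ⟨hu, hu', hx⟩ ⟨hv, hv', -⟩ huv
    exact hcl x (par x) (hadj x hx).symm u v hu hu' hv hv' huv
  · intro u v huv
    obtain ⟨x₀, h₀⟩ := D.edge u v huv
    obtain ⟨x, hx, hmax⟩ := Finset.exists_max_image
      (univ.filter fun x : D.ι => u ∈ D.bag x ∧ v ∈ D.bag x) ρ ⟨x₀, by simpa using h₀⟩
    have hx' : u ∈ D.bag x ∧ v ∈ D.bag x := by simpa using hx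
    refine ⟨x, hx'.1, hx'.2, ?_⟩
    rintro ⟨⟨-, hu', hne⟩, ⟨-, hv', -⟩⟩
    have h1 := hmax (par x) (by simpa using ⟨hu', hv'⟩)
    have h2 := hlt x hne
    omega
  · intro x s v hv hK hs
    by_contra hcon
    push Not at hcon
    have := hup v x s hv hs hcon
    exact hK ⟨hv, this.1, this.2⟩

end Pool.MP_35885f
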