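import Pool.Agent.Lib.MP_35885f_cl.Stat

/-!
# Clique separators: the general theorem (row KEY)
-/

open Finset

namespace Pool.MP_35885f

open scoped Classical

namespace Cl

/-- From a generating set to a basis. -/
lemma basisNumber_le_span {V : Type} [Fintype V] (G : SimpleGraph V) (m : ℕ)
    (S : Finset (Sym2 V → ZMod 2))
    (hS : Submodule.span (ZMod 2) (S : Set (Sym2 V → ZMod 2)) = cycleSpace G)
    (hp : ∀ e ∈ G.edgeSet, ply e S ≤ m) : basisNumber G ≤ m := by
  obtain ⟨b, hb1, hb2, hb3⟩ := exists_linearIndependent (ZMod 2) (S : Set (Sym2 V → ZMod 2))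
  have hfin : b.Finite := S.finite_toSet.subset hb1
  have hcoe : (hfin.toFinset : Set (Sym2 V → ZMod 2)) = b := hfin.coe_toFinset
  refine Nat.sInf_le ⟨hfin.toFinset, ⟨?_, ?_⟩, ?_⟩
  · have h1 : ∀ x, x ∈ hfin.toFinset ↔ x ∈ b := fun x => hfin.mem_toFinset
    have h2 := hb3.comp (fun x : hfin.toFinset => (⟨x.1, (h1 x.1).1 x.2⟩ : b)) (by
      intro x y h
      simp only [Subtype.mk.injEq] at h
      exact Subtype.ext h)
    exact h2
  · rw [hcoe, hb2, hS]
  · intro e he
    refine le_trans ?_ (hp e he)
    unfold ply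
    refine card_le_card (Finset.filter_subset_filter _ ?_)
    intro x hx
    exact hb1 (hfin.mem_toFinset.1 hx)

section

variable {V : Type} [Fintype V] {G : SimpleGraph V} (F : Frame G)

omit [Fintype V] in
lemma own_unique {x y : F.ι} {e : Sym2 V} (hx : F.Own x e) (hy : F.Own y e) : x = y := by
  have h1 : F.ρ y ≤ F.ρ x := by
    have h := hx.2.2
    push Not at h
    obtain ⟨v, hv, hvK⟩ := h
    exact F.up x y v (hx.2.1 v hv) hvK (hy.2.1 v hv)
  have h2 : F.ρ x ≤ F.ρ y := by
    have h := hy.2.2
    push Not at h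
    obtain ⟨v, hv, hvK⟩ := h
    exact F.up y x v (hy.2.1 v hv) hvK (hx.2.1 v hv)
  exact F.inj (le_antisymm h2 h1)

omit [Fintype V] in
lemma own_lt {x y : F.ι} {e : Sym2 V} (hy : F.Own y e) (hK : ∀ v ∈ e, v ∈ F.K x) :
    F.ρ x < F.ρ y := by
  have h := hy.2.2
  push Not at h
  obtain ⟨v, hv, hvK⟩ := h
  have h1 := F.up y x v (hy.2.1 v hv) hvK (F.sub x (hK v hv))
  refine lt_of_le_of_ne h1 fun h2 => ?_
  have h3 := F.inj h2
  subst h3
  exact hy.2.2 hK

omit [Fintype V] in
lemma exists_own {e : Sym2 V} (he : e ∈ G.edgeSet) : ∃ x, F.Own x e := by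
  induction e using Sym2.ind with
  | _ u v =>
    obtain ⟨x, hu, hv, hn⟩ := F.cover u v he
    refine ⟨x, he, ?_, ?_⟩
    · intro w hw
      rcases Sym2.mem_iff.1 hw with rfl | rfl
      · exact hu
      · exact hv
    · intro h
      exact hn ⟨h u (Sym2.mem_mk_left _ _), h v (Sym2.mem_mk_right _ _)⟩

/-- The part of a vector on the edges which belong to `x`. -/
noncomputable def op (x : F.ι) : (Sym2 V → ZMod 2) →ₗ[ZMod 2] (Sym2 V → ZMod 2) where
  toFun f e := if F.Own x e then f e else 0
  map_add' f g := by
    funext e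
    by_cases h : F.Own x e <;> simp [h]
  map_smul' c f := by
    funext e
    by_cases h : F.Own x e <;> simp [h]

omit [Fintype V] in
lemma op_apply (x : F.ι) (f : Sym2 V → ZMod 2) (e : Sym2 V) :
    op F x f e = if F.Own x e then f e else 0 := rfl

lemma bd_smul (c : ZMod 2) (f : Sym2 V → ZMod 2) (v : V) : bd (c • f) v = c * bd f v := by
  simp [bd, Finset.mul_sum]

lemma bd_zero (v : V) : bd (0 : Sym2 V → ZMod 2) v = 0 := by simp [bd]

lemma bd_sum {I : Type} (s : Finset I) (f : I → Sym2 V → ZMod 2) (v : V) :
    bd (∑ i ∈ s, f i) v = ∑ i ∈ s, bd (f i) v := by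
  induction s using Finset.induction_on with
  | empty => simp [bd_zero]
  | insert i s hi ih => rw [Finset.sum_insert hi, Finset.sum_insert hi, bd_add, ih]

lemma bd_sgl {h v : V} (hne : h ≠ v) (u : V) :
    bd (sgl s(h, v)) u = (if u = h then 1 else 0) + if u = v then 1 else 0 := by
  unfold bd sgl
  have h1 : ∀ w, (Pi.single s(h, v) 1 : Sym2 V → ZMod 2) s(u, w) =
      (if u = h ∧ w = v then 1 else 0) + (if u = v ∧ w = h then 1 else 0) := by
    intro w
    rw [Pi.single_apply]
    have hiff : s(u, w) = s(h, v) ↔ (u = h ∧ w = v) ∨ (u = v ∧ w = h) := Sym2.eq_iff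
    by_cases h1 : u = h ∧ w = v
    · have h2 : ¬ (u = v ∧ w = h) := by
        rintro ⟨h3, -⟩
        exact hne (h1.1.symm.trans h3)
      rw [if_pos (hiff.2 (Or.inl h1)), if_pos h1, if_neg h2, add_zero]
    · by_cases h2 : u = v ∧ w = h
      · rw [if_pos (hiff.2 (Or.inr h2)), if_neg h1, if_pos h2, zero_add]
      · rw [if_neg (fun h => by rcases hiff.1 h with h | h; exacts [h1 h, h2 h]),
          if_neg h1, if_neg h2, add_zero]
  simp only [h1, Finset.sum_add_distrib]
  congr 1
  · by_cases hv : u = h <;> simp [hv]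
  · by_cases hv : u = v <;> simp [hv]

omit [Fintype V] in
lemma sgl_ne {e e' : Sym2 V} (h : sgl e e' ≠ 0) : e' = e := by
  by_contra h1
  exact h (by rw [sgl, Pi.single_apply, if_neg h1])

omit [Fintype V] in
lemma cnt_append (e : Sym2 V) (L L' : List (Sym2 V → ZMod 2)) :
    cnt e (L ++ L') = cnt e L + cnt e L' := List.countP_append

omit [Fintype V] in
lemma cnt_nil (e : Sym2 V) : cnt e ([] : List (Sym2 V → ZMod 2)) = 0 := rfl

omit [Fintype V] in
lemma cnt_cons (e : Sym2 V) (g : Sym2 V → ZMod 2) (L : List (Sym2 V → ZMod 2)) :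
    cnt e (g :: L) = cnt e L + if g e ≠ 0 then 1 else 0 := by
  unfold cnt
  rw [List.countP_cons]
  simp

omit [Fintype V] in
lemma cnt_flatMap {I : Type} (e : Sym2 V) (l : List I) (Γ : I → List (Sym2 V → ZMod 2)) :
    cnt e (l.flatMap Γ) = (l.map fun i => cnt e (Γ i)).sum := by
  induction l with
  | nil => rfl
  | cons i l ih => rw [List.flatMap_cons, cnt_append, ih, List.map_cons, List.sum_cons]

omit [Fintype V] in
lemma cnt_map {I : Type} (e : Sym2 V) (l : List I) (g : I → Sym2 V → ZMod 2) :
    cnt e (l.map g) = (l.map fun i => if g i e ≠ 0 then 1 else 0).sum := by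
  induction l with
  | nil => rfl
  | cons i l ih => rw [List.map_cons, cnt_cons, ih, List.map_cons, List.sum_cons, add_comm]

lemma ply_toFinset (e : Sym2 V) (L : List (Sym2 V → ZMod 2)) : ply e L.toFinset ≤ cnt e L := by
  unfold ply cnt
  rw [List.countP_eq_length_filter]
  have h : (L.toFinset.filter fun x => x e ≠ 0) ⊆
      (L.filter fun g => decide (g e ≠ 0)).toFinset := by
    intro g hg
    rw [Finset.mem_filter, List.mem_toFinset] at hg
    rw [List.mem_toFinset, List.mem_filter]
    exact ⟨hg.1, by simpa using hg.2⟩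
  exact (card_le_card h).trans (List.toFinset_card_le _)

omit [Fintype V] in
lemma cnt_pos {e : Sym2 V} {L : List (Sym2 V → ZMod 2)} {g : Sym2 V → ZMod 2} (hg : g ∈ L)
    (h : g e ≠ 0) : 0 < cnt e L := by
  unfold cnt
  rw [List.countP_pos_iff]
  exact ⟨g, hg, by simpa using h⟩

end

end Cl

open Cl in
/-- Row KEY. -/
theorem key (hE : EAR) (hC : CHN) : KEY := by
  intro V _ G F b B hB hspan hply
  have := F.fin
  -- own parts of the members of `B x`
  have hloop : ∀ v : V, s(v, v) ∉ G.edgeSet := fun v h => (G.irrefl (v := v)) h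
  have hopK : ∀ (x : F.ι) (f : Sym2 V → ZMod 2), (∀ v ∉ F.K x, bd f v = 0) →
      (∀ e, f e ≠ 0 → e ∈ G.edgeSet ∧ ∀ v ∈ e, v ∉ F.K x → F.Own x e) →
      ∀ v ∉ F.K x, bd (op F x f) v = 0 := by
    intro x f h1 h2 v hv
    rw [← h1 v hv]
    unfold bd
    refine Finset.sum_congr rfl fun w _ => ?_
    rw [op_apply]
    by_cases h3 : f s(v, w) = 0
    · rw [h3, ite_self]
    · rw [if_pos ((h2 _ h3).2 v (Sym2.mem_mk_left _ _) hv)]
  have hpiece : ∀ (s : Set V) (e : Sym2 V), e ∈ (piece G s).edgeSet ↔
      e ∈ G.edgeSet ∧ ∀ v ∈ e, v ∈ s := by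
    intro s e
    induction e using Sym2.ind with
    | _ u v =>
      rw [SimpleGraph.mem_edgeSet, SimpleGraph.mem_edgeSet]
      constructor
      · rintro ⟨h1, h2, h3⟩
        refine ⟨h1, fun w hw => ?_⟩
        rcases Sym2.mem_iff.1 hw with rfl | rfl
        · exact h2
        · exact h3
      · rintro ⟨h1, h2⟩
        exact ⟨h1, h2 u (Sym2.mem_mk_left _ _), h2 v (Sym2.mem_mk_right _ _)⟩
  have hBop : ∀ (x : F.ι), ∀ f ∈ B x, ∀ v, bd (op F x f) v ≠ 0 → v ∈ F.K x := by
    intro x f hf v hv
    by_contra hvK
    have h1 := mem_cycleSpace.1 (hB x f hf)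
    refine hv (hopK x f (fun v _ => h1.2 v) (fun e he => ?_) v hvK)
    have h2 : e ∈ (piece G (F.bag x)).edgeSet := by
      by_contra h2
      exact he (h1.1 e h2)
    rw [hpiece] at h2
    exact ⟨h2.1, fun v hv hvK => ⟨h2.1, h2.2, fun h => hvK (h v hv)⟩⟩
  have hopl : ∀ (x : F.ι) (f : Sym2 V → ZMod 2) (v : V), op F x f s(v, v) = 0 := by
    intro x f v
    rw [op_apply, if_neg]
    intro h
    exact hloop v h.1
  choose g₀ L hL1 hL2 hL3 hL4 using fun (x : F.ι) (f : Sym2 V → ZMod 2) =>
    hE V (op F x f) (hopl x f)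
  -- supports
  have hsup0 : ∀ x f e, g₀ x f e ≠ 0 → op F x f e ≠ 0 := by
    intro x f e h h'
    have h1 := hL4 x f e
    rw [if_pos h, if_neg (not_not.2 h')] at h1
    omega
  have hsupL : ∀ x f e, ∀ p ∈ L x f, p.1 e ≠ 0 → op F x f e ≠ 0 := by
    intro x f e p hp h h'
    have h1 := hL4 x f e
    have h2 := cnt_pos (List.mem_map_of_mem (f := Prod.fst) hp) h
    rw [if_neg (not_not.2 h')] at h1
    omega
  have hopown : ∀ x f e, op F x f e ≠ 0 → F.Own x e ∧ f e ≠ 0 := by
    intro x f e h
    rw [op_apply] at h
    split_ifs at h with h1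
    · exact ⟨h1, h⟩
    · exact absurd rfl h
  -- the lists
  let nodes : List F.ι := (Finset.univ : Finset F.ι).toList
  let Z : List (Sym2 V → ZMod 2) := nodes.flatMap fun x => (B x).toList.map (g₀ x)
  let A : List ((Sym2 V → ZMod 2) × V × V) := nodes.flatMap fun x => (B x).toList.flatMap (L x)
  let Lh : Sym2 V → List (Sym2 V → ZMod 2) := fun h =>
    (A.filter fun p => decide (s(p.2.1, p.2.2) = h)).map Prod.fst
  choose Γ hΓ1 hΓ2 hΓ3 using fun h : Sym2 V => hC V (Lh h) (sgl h)
  let H : List (Sym2 V → ZMod 2) := (Finset.univ : Finset (Sym2 V)).toList.flatMap Γ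
  let S : Finset (Sym2 V → ZMod 2) := (Z ++ H).toFinset
  have hmemA : ∀ p, p ∈ A ↔ ∃ x, ∃ f ∈ B x, p ∈ L x f := by
    intro p
    simp only [A, nodes, List.mem_flatMap, Finset.mem_toList, Finset.mem_univ, true_and]
  have hmemZ : ∀ g, g ∈ Z ↔ ∃ x, ∃ f ∈ B x, g₀ x f = g := by
    intro g
    simp only [Z, nodes, List.mem_flatMap, List.mem_map, Finset.mem_toList, Finset.mem_univ,
      true_and]
  have hmemLh : ∀ h g, g ∈ Lh h ↔ ∃ u w, s(u, w) = h ∧ (g, u, w) ∈ A := by
    intro h g
    simp only [Lh, List.mem_map, List.mem_filter, decide_eq_true_eq]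
    constructor
    · rintro ⟨⟨g', u, w⟩, ⟨h1, h2⟩, rfl⟩
      exact ⟨u, w, h2, h1⟩
    · rintro ⟨u, w, h1, h2⟩
      exact ⟨(g, u, w), ⟨h2, h1⟩, rfl⟩
  -- ears
  have hear : ∀ g u w, (g, u, w) ∈ A → u ≠ w ∧ (∀ v, bd g v = bd (sgl s(u, w)) v) ∧
      s(u, w) ∈ G.edgeSet ∧ ∀ e, g e ≠ 0 → e ∈ G.edgeSet := by
    intro g u w hg
    obtain ⟨x, f, hf, hp⟩ := (hmemA _).1 hg
    obtain ⟨h1, h2, h3, h4⟩ := hL3 x f _ hp
    refine ⟨h1, fun v => ?_, ?_, fun e he => ?_⟩
    · rw [bd_sgl h1]
      exact h4 v
    · exact F.clique x u w (hBop x f hf u h2) (hBop x f hf w h3) h1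
    · exact (hopown x f e (hsupL x f e _ hp he)).1.1
  have hScyc : ∀ g ∈ S, g ∈ cycleSpace G := by
    intro g hg
    rw [List.mem_toFinset, List.mem_append] at hg
    rcases hg with hg | hg
    · obtain ⟨x, f, hf, rfl⟩ := (hmemZ g).1 hg
      refine mem_cycleSpace.2 ⟨fun e he => ?_, hL2 x f⟩
      by_contra h
      exact he (hopown x f e (hsup0 x f e h)).1.1
    · simp only [H, List.mem_flatMap, Finset.mem_toList, Finset.mem_univ, true_and] at hg
      obtain ⟨h, hg⟩ := hg
      obtain ⟨g₁, hg₁, h2⟩ := hΓ2 h g hg
      obtain ⟨u, w, rfl, hA⟩ := (hmemLh h g₁).1 hg₁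
      obtain ⟨h3, h4, h5, h6⟩ := hear g₁ u w hA
      rcases h2 with rfl | ⟨g₂, hg₂, rfl⟩
      · refine mem_cycleSpace.2 ⟨fun e he => ?_, fun v => ?_⟩
        · rw [Pi.add_apply]
          have h7 : g₁ e = 0 := by
            by_contra h7
            exact he (h6 e h7)
          have h8 : sgl s(u, w) e = 0 := by
            by_contra h8
            exact he (sgl_ne h8 ▸ h5)
          rw [h7, h8, add_zero]
        · rw [bd_add, h4 v]
          exact CharTwo.add_self_eq_zero _
      · obtain ⟨u', w', huw, hA'⟩ := (hmemLh _ g₂).1 hg₂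
        obtain ⟨h3', h4', h5', h6'⟩ := hear g₂ u' w' hA'
        refine mem_cycleSpace.2 ⟨fun e he => ?_, fun v => ?_⟩
        · rw [Pi.add_apply]
          have h7 : g₁ e = 0 := by
            by_contra h7
            exact he (h6 e h7)
          have h8 : g₂ e = 0 := by
            by_contra h8
            exact he (h6' e h8)
          rw [h7, h8, add_zero]
        · rw [bd_add, h4 v, h4' v, huw]
          exact CharTwo.add_self_eq_zero _
  -- the span
  have hSpan : Submodule.span (ZMod 2) (S : Set (Sym2 V → ZMod 2)) = cycleSpace G := by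
    refine le_antisymm (Submodule.span_le.2 hScyc) ?_
    set Sp := Submodule.span (ZMod 2) (S : Set (Sym2 V → ZMod 2)) with hSp
    have hΓSp : ∀ h, Submodule.span (ZMod 2) {γ | γ ∈ Γ h} ≤ Sp := by
      intro h
      refine Submodule.span_mono fun γ hγ => ?_
      change γ ∈ S
      rw [List.mem_toFinset, List.mem_append]
      right
      simp only [H, List.mem_flatMap, Finset.mem_toList, Finset.mem_univ, true_and]
      exact ⟨h, hγ⟩
    let W : F.ι → Submodule (ZMod 2) (Sym2 V → ZMod 2) := fun x =>
      Submodule.span (ZMod 2) {g | ∃ h ∈ G.edgeSet, (∀ v ∈ h, v ∈ F.K x) ∧ g = sgl h}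
    have hW : ∀ x, ∀ q ∈ W x, ∀ e, q e ≠ 0 → ∀ v ∈ e, v ∈ F.K x := by
      intro x q hq
      induction hq using Submodule.span_induction with
      | mem g hg =>
        obtain ⟨h, h1, h2, rfl⟩ := hg
        intro e he
        rw [sgl_ne he]
        exact h2
      | zero => intro e he; exact absurd rfl he
      | add p q _ _ hp hq =>
        intro e he
        by_cases h : p e = 0
        · refine hq e fun h' => he ?_
          rw [Pi.add_apply, h, h', add_zero]
        · exact hp e h
      | smul c p _ hp =>
        intro e he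
        refine hp e fun h' => he ?_
        rw [Pi.smul_apply, h', smul_zero]
    have hopSp : ∀ x, ∀ f ∈ B x, op F x f ∈ Sp ⊔ W x := by
      intro x f hf
      rw [hL1 x f]
      refine Submodule.add_mem _ (Submodule.mem_sup_left (Submodule.subset_span ?_)) ?_
      · change g₀ x f ∈ S
        rw [List.mem_toFinset, List.mem_append]
        exact Or.inl ((hmemZ _).2 ⟨x, f, hf, rfl⟩)
      · refine list_sum_mem fun g hg => ?_
        obtain ⟨p, hp, rfl⟩ := List.mem_map.1 hg
        have hpA : (p.1, p.2.1, p.2.2) ∈ A := (hmemA _).2 ⟨x, f, hf, hp⟩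
        have h1 := hΓ1 s(p.2.1, p.2.2) p.1 ((hmemLh _ _).2 ⟨_, _, rfl, hpA⟩)
        have h2 : p.1 = (p.1 + sgl s(p.2.1, p.2.2)) + sgl s(p.2.1, p.2.2) := by
          rw [add_assoc, ZModModule.add_self, add_zero]
        rw [h2]
        refine Submodule.add_mem _ (Submodule.mem_sup_left (hΓSp _ h1))
          (Submodule.mem_sup_right (Submodule.subset_span ⟨_, (hear _ _ _ hpA).2.2.1, ?_, rfl⟩))
        obtain ⟨h3, h4, h5, h6⟩ := hL3 x f _ hp
        intro v hv
        rcases Sym2.mem_iff.1 hv with rfl | rfl
        · exact hBop x f hf _ h4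
        · exact hBop x f hf _ h5
    -- downward induction
    obtain ⟨N, hN⟩ : ∃ N, ∀ x, F.ρ x < N :=
      ⟨(Finset.univ : Finset F.ι).sup F.ρ + 1, fun x =>
        Nat.lt_succ_of_le (Finset.le_sup (f := F.ρ) (Finset.mem_univ x))⟩
    have main : ∀ m n, n + m = N → ∀ c ∈ cycleSpace G,
        (∀ x e, F.Own x e → F.ρ x < n → c e = 0) → c ∈ Sp := by
      intro m
      induction m with
      | zero =>
        intro n hn c hc h
        have h0 : c = 0 := by
          funext e
          by_contra he
          have h1 : e ∈ G.edgeSet := by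
            by_contra h1
            exact he ((mem_cycleSpace.1 hc).1 e h1)
          obtain ⟨x, hx⟩ := exists_own F h1
          exact he (h x e hx (by rw [← hn, add_zero] at hN; exact hN x))
        rw [h0]
        exact Sp.zero_mem
      | succ m ih =>
        intro n hn c hc h
        by_cases hex : ∃ x, F.ρ x = n
        swap
        · refine ih (n + 1) (by omega) c hc fun x e hx hlt => h x e hx ?_
          have : F.ρ x ≠ n := fun h' => hex ⟨x, h'⟩
          omega
        obtain ⟨x, hx⟩ := hex
        have hc' := mem_cycleSpace.1 hc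
        -- the own part of `c`
        have hcK : ∀ v, bd (op F x c) v ≠ 0 → v ∈ F.K x := by
          intro v hv
          by_contra hvK
          by_cases hvb : v ∈ F.bag x
          · refine hv (?_ : bd (op F x c) v = 0)
            rw [← hc'.2 v]
            unfold bd
            refine Finset.sum_congr rfl fun w _ => ?_
            rw [op_apply]
            by_cases h3 : c s(v, w) = 0
            · rw [h3, ite_self]
            · rw [if_pos]
              have h4 : s(v, w) ∈ G.edgeSet := by
                by_contra h4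
                exact h3 (hc'.1 _ h4)
              obtain ⟨y, hy⟩ := exists_own F h4
              have h5 := F.up x y v hvb hvK (hy.2.1 v (Sym2.mem_mk_left _ _))
              rcases h5.lt_or_eq with h6 | h6
              · exact absurd (h y _ hy (by omega)) h3
              · rw [← F.inj h6]
                exact hy
          · apply hv
            unfold bd
            refine Finset.sum_eq_zero fun w _ => ?_
            rw [op_apply, if_neg]
            intro h3
            exact hvb (h3.2.1 v (Sym2.mem_mk_left _ _))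
        -- the correction inside the clique
        obtain ⟨k, hkK, hkbd⟩ : ∃ k : Sym2 V → ZMod 2,
            (∀ e, k e ≠ 0 → e ∈ G.edgeSet ∧ ∀ v ∈ e, v ∈ F.K x) ∧
            ∀ v, bd k v = bd (op F x c) v := by
          by_cases hT : ∃ h, bd (op F x c) h ≠ 0
          swap
          · push Not at hT
            exact ⟨0, fun e he => absurd rfl he, fun v => by rw [bd_zero, hT v]⟩
          obtain ⟨h, hh⟩ := hT
          refine ⟨∑ v ∈ Finset.univ.erase h, bd (op F x c) v • sgl s(h, v), fun e he => ?_,
            fun u => ?_⟩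
          · rw [Finset.sum_apply] at he
            obtain ⟨v, hv, hv2⟩ := Finset.exists_ne_zero_of_sum_ne_zero he
            rw [Pi.smul_apply, smul_eq_mul] at hv2
            have h1 := left_ne_zero_of_mul hv2
            have h2 := sgl_ne (right_ne_zero_of_mul hv2)
            have h3 : h ≠ v := (Finset.ne_of_mem_erase hv).symm
            subst h2
            refine ⟨F.clique x h v (hcK h hh) (hcK v h1) h3, fun w hw => ?_⟩
            rcases Sym2.mem_iff.1 hw with rfl | rfl
            · exact hcK _ hh
            · exact hcK _ h1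
          · rw [bd_sum]
            have h1 : ∀ v ∈ Finset.univ.erase h, bd (bd (op F x c) v • sgl s(h, v)) u =
                (if u = h then bd (op F x c) v else 0) +
                  (if u = v then bd (op F x c) v else 0) := by
              intro v hv
              rw [bd_smul, bd_sgl (Finset.ne_of_mem_erase hv).symm, mul_add, mul_ite, mul_one,
                mul_zero, mul_ite, mul_one, mul_zero]
            rw [Finset.sum_congr rfl h1, Finset.sum_add_distrib]
            have h2 : ∑ v ∈ Finset.univ.erase h, bd (op F x c) v = bd (op F x c) h := by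
              have h3 := sum_bd (hopl x c)
              rw [← Finset.add_sum_erase _ _ (Finset.mem_univ h)] at h3
              have h4 := eq_neg_of_add_eq_zero_right h3
              rw [h4]
              exact ZModModule.neg_eq_self _
            by_cases hu : u = h
            · subst hu
              simp only [if_true]
              rw [h2, Finset.sum_eq_zero, add_zero]
              intro v hv
              rw [if_neg (Finset.ne_of_mem_erase hv).symm]
            · simp only [if_neg hu, Finset.sum_const_zero, zero_add]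
              rw [Finset.sum_ite_eq, if_pos (Finset.mem_erase.2 ⟨hu, Finset.mem_univ u⟩)]
        have hk1 : op F x k = 0 := by
          funext e
          by_contra he
          obtain ⟨h1, h2⟩ := hopown x k e he
          exact h1.2.2 (hkK e h2).2
        have hcyc : op F x c + k ∈ cycleSpace (piece G (F.bag x)) := by
          refine mem_cycleSpace.2 ⟨fun e he => ?_, fun v => ?_⟩
          · rw [hpiece] at he
            have h1 : op F x c e = 0 := by
              by_contra h1
              have h2 := (hopown x c e h1).1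
              exact he ⟨h2.1, h2.2.1⟩
            have h2 : k e = 0 := by
              by_contra h2
              exact he ⟨(hkK e h2).1, fun v hv => F.sub x ((hkK e h2).2 v hv)⟩
            rw [Pi.add_apply, h1, h2, add_zero]
          · rw [bd_add, hkbd v]
            exact CharTwo.add_self_eq_zero _
        obtain ⟨s₁, hs₁, s₂, hs₂, hs⟩ := Submodule.mem_sup.1 (hspan x hcyc)
        have hs2 : op F x s₂ = 0 := by
          funext e
          by_contra he
          obtain ⟨h1, h2⟩ := hopown x s₂ e he
          have h3 : e ∈ (piece G (F.K x)).edgeSet := by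
            by_contra h3
            exact h2 ((mem_cycleSpace.1 hs₂).1 e h3)
          rw [hpiece] at h3
          exact h1.2.2 h3.2
        have hidem : op F x (op F x c) = op F x c := by
          funext e
          rw [op_apply, op_apply]
          split_ifs <;> rfl
        have hop : op F x c = op F x s₁ := by
          have h1 := congrArg (op F x) hs
          rw [map_add, map_add, hs2, hk1, hidem, add_zero, add_zero] at h1
          exact h1.symm
        have hcSp : op F x c ∈ Sp ⊔ W x := by
          rw [hop]
          have h1 : Submodule.span (ZMod 2) (B x : Set (Sym2 V → ZMod 2)) ≤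
              (Sp ⊔ W x).comap (op F x) := by
            refine Submodule.span_le.2 fun f hf => ?_
            exact hopSp x f hf
          exact h1 hs₁
        obtain ⟨p, hp, q, hq, hpq⟩ := Submodule.mem_sup.1 hcSp
        have hcp : c - p ∈ Sp := by
          refine ih (n + 1) (by omega) (c - p) (Submodule.sub_mem _ hc
            (Submodule.span_le.2 hScyc hp)) fun y e hy hlt => ?_
          have hq0 : q e = 0 := by
            by_contra hq0
            have := own_lt F hy (hW x q hq e hq0)
            omega
          have hpe : p e = op F x c e := by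
            have h1 := congrFun hpq e
            rw [Pi.add_apply, hq0, add_zero] at h1
            exact h1
          rw [Pi.sub_apply, hpe, op_apply]
          by_cases hxy : y = x
          · subst hxy
            rw [if_pos hy, sub_self]
          · have h1 : F.ρ y ≠ n := fun h' => hxy (F.inj (h'.trans hx.symm))
            rw [if_neg (fun h' => hxy (own_unique F hy h')), h y e hy (by omega), sub_zero]
        have h1 := Sp.add_mem hcp hp
        rwa [sub_add_cancel] at h1
    intro c hc
    exact main N 0 (by omega) c hc fun x e _ hlt => absurd hlt (Nat.not_lt_zero _)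
  -- the ply
  refine basisNumber_le_span G _ S hSpan fun e he => ?_
  refine (ply_toFinset e _).trans ?_
  rw [cnt_append]
  have hH : cnt e H ≤ 2 * cnt e (A.map Prod.fst) + 1 := by
    have h1 : cnt e H = ∑ h : Sym2 V, cnt e (Γ h) := by
      simp only [H]
      rw [cnt_flatMap, Finset.sum_map_toList]
    have h2 : ∑ h : Sym2 V, cnt e (Lh h) = cnt e (A.map Prod.fst) := by
      simp only [Lh]
      induction A with
      | nil => simp [cnt_nil]
      | cons p A ih =>
        rw [List.map_cons, cnt_cons, ← ih]
        have h3 : ∀ h : Sym2 V, cnt e (((p :: A).filter fun p => decide (s(p.2.1, p.2.2) = h)).map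
            Prod.fst) = cnt e ((A.filter fun p => decide (s(p.2.1, p.2.2) = h)).map Prod.fst) +
              if s(p.2.1, p.2.2) = h then (if p.1 e ≠ 0 then 1 else 0) else 0 := by
          intro h
          rw [List.filter_cons]
          by_cases h4 : s(p.2.1, p.2.2) = h
          · rw [if_pos (by simpa using h4), List.map_cons, cnt_cons, if_pos h4]
          · rw [if_neg (by simpa using h4), if_neg h4, add_zero]
        rw [Finset.sum_congr rfl fun h _ => h3 h, Finset.sum_add_distrib, Finset.sum_ite_eq,
          if_pos (Finset.mem_univ _)]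
    rw [h1, ← h2]
    calc ∑ h : Sym2 V, cnt e (Γ h) ≤
        ∑ h : Sym2 V, (2 * cnt e (Lh h) + if sgl h e ≠ 0 then 1 else 0) :=
          Finset.sum_le_sum fun h _ => hΓ3 h e
      _ = 2 * ∑ h : Sym2 V, cnt e (Lh h) + ∑ h : Sym2 V, if sgl h e ≠ 0 then 1 else 0 := by
          rw [Finset.sum_add_distrib, Finset.mul_sum]
      _ ≤ 2 * ∑ h : Sym2 V, cnt e (Lh h) + 1 := by
          gcongr
          calc ∑ h : Sym2 V, (if sgl h e ≠ 0 then 1 else 0) ≤
              ∑ h : Sym2 V, (if e = h then 1 else 0) := by
                refine Finset.sum_le_sum fun h _ => ?_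
                by_cases h3 : sgl h e ≠ 0
                · rw [if_pos h3, if_pos (sgl_ne h3)]
                · rw [if_neg h3]
                  exact Nat.zero_le _
            _ ≤ 1 := by
                rw [Finset.sum_ite_eq, if_pos (Finset.mem_univ _)]
  have hZA : cnt e Z + cnt e (A.map Prod.fst) ≤ b := by
    have h1 : cnt e Z = ∑ x : F.ι, ∑ f ∈ B x, if g₀ x f e ≠ 0 then 1 else 0 := by
      simp only [Z, nodes]
      rw [cnt_flatMap, Finset.sum_map_toList]
      refine Finset.sum_congr rfl fun x _ => ?_
      rw [cnt_map, Finset.sum_map_toList]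
    have h2 : cnt e (A.map Prod.fst) = ∑ x : F.ι, ∑ f ∈ B x, cnt e ((L x f).map Prod.fst) := by
      simp only [A, nodes]
      rw [List.map_flatMap, cnt_flatMap, Finset.sum_map_toList]
      refine Finset.sum_congr rfl fun x _ => ?_
      rw [List.map_flatMap, cnt_flatMap, Finset.sum_map_toList]
    rw [h1, h2, ← Finset.sum_add_distrib]
    obtain ⟨x₀, hx₀⟩ := exists_own F he
    calc ∑ x : F.ι, (∑ f ∈ B x, (if g₀ x f e ≠ 0 then 1 else 0) +
          ∑ f ∈ B x, cnt e ((L x f).map Prod.fst)) ≤
        ∑ x : F.ι, if x = x₀ then ply e (B x₀) else 0 := by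
          refine Finset.sum_le_sum fun x _ => ?_
          rw [← Finset.sum_add_distrib]
          by_cases hx : x = x₀
          · subst hx
            rw [if_pos rfl]
            unfold ply
            rw [Finset.card_filter]
            refine Finset.sum_le_sum fun f _ => ?_
            refine (hL4 x f e).trans ?_
            by_cases h3 : op F x f e ≠ 0
            · rw [if_pos h3, if_pos (hopown x f e h3).2]
            · rw [if_neg h3]
              exact Nat.zero_le _
          · rw [if_neg hx]
            refine (Finset.sum_eq_zero fun f _ => ?_).le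
            have h3 : op F x f e = 0 := by
              by_contra h3
              exact hx (own_unique F (hopown x f e h3).1 hx₀)
            have h4 := hL4 x f e
            rw [if_neg (c := op F x f e ≠ 0) (not_not.2 h3)] at h4
            omega
      _ = ply e (B x₀) := by
          rw [Finset.sum_ite_eq', if_pos (Finset.mem_univ _)]
      _ ≤ b := hply x₀ e hx₀
  omega

end Pool.MP_35885f
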