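import Pool.Agent.Lib.MP_35885f_pw.Path

/-!
# Basis number and clique separators: statements of the rows

`bn(G) ≤ 2 b + 1` if `G` has a tree decomposition whose adhesion sets are cliques and whose parts
have basis number at most `b`; `bn(G) ≤ 5` for chordal graphs.
-/

open Finset

namespace Pool.MP_35885f

/-- The subgraph of `G` induced on `s`, with all vertices of `G`. -/
def piece {V : Type} (G : SimpleGraph V) (s : Set V) : SimpleGraph V where
  Adj u v := G.Adj u v ∧ u ∈ s ∧ v ∈ s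
  symm := ⟨fun _ _ h => ⟨h.1.symm, h.2.2, h.2.1⟩⟩
  loopless := ⟨fun _ h => h.1.ne rfl⟩

/-- A rooted decomposition with clique adhesions: bags `bag x`, the part `K x ⊆ bag x` shared with
the parent is a clique, and the bag `bag x` is the highest one containing a vertex of
`bag x \ K x`. -/
structure Frame {V : Type} (G : SimpleGraph V) where
  ι : Type
  fin : Fintype ι
  ρ : ι → ℕ
  inj : Function.Injective ρ
  bag : ι → Set V
  K : ι → Set V
  sub : ∀ x, K x ⊆ bag x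
  clique : ∀ x u v, u ∈ K x → v ∈ K x → u ≠ v → G.Adj u v
  cover : ∀ u v, G.Adj u v → ∃ x, u ∈ bag x ∧ v ∈ bag x ∧ ¬ (u ∈ K x ∧ v ∈ K x)
  up : ∀ x s v, v ∈ bag x → v ∉ K x → v ∈ bag s → ρ s ≤ ρ x

/-- The edge `e` belongs to the node `x`. -/
def Frame.Own {V : Type} {G : SimpleGraph V} (F : Frame G) (x : F.ι) (e : Sym2 V) : Prop :=
  e ∈ G.edgeSet ∧ (∀ v ∈ e, v ∈ F.bag x) ∧ ¬ ∀ v ∈ e, v ∈ F.K x

open scoped Classical

/-- The number of members of the list `L` containing `e`. -/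
noncomputable def cnt {V : Type} (e : Sym2 V) (L : List (Sym2 V → ZMod 2)) : ℕ :=
  L.countP fun g => decide (g e ≠ 0)

/-- The vector of the single pair `e`. -/
noncomputable def sgl {V : Type} (e : Sym2 V) : Sym2 V → ZMod 2 := Pi.single e 1

/-- **Row EAR**: a vector is a disjoint sum of a vector with even degrees and of vectors with exactly
two odd degrees. -/
def EAR : Prop :=
  ∀ (V : Type) [Fintype V] (f : Sym2 V → ZMod 2), (∀ v, f s(v, v) = 0) →
    ∃ (g₀ : Sym2 V → ZMod 2) (L : List ((Sym2 V → ZMod 2) × V × V)),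
      f = g₀ + (L.map Prod.fst).sum ∧ (∀ v, bd g₀ v = 0) ∧
      (∀ p ∈ L, p.2.1 ≠ p.2.2 ∧ bd f p.2.1 ≠ 0 ∧ bd f p.2.2 ≠ 0 ∧
        ∀ v, bd p.1 v = (if v = p.2.1 then 1 else 0) + if v = p.2.2 then 1 else 0) ∧
      ∀ e, (if g₀ e ≠ 0 then 1 else 0) + cnt e (L.map Prod.fst) ≤ if f e ≠ 0 then 1 else 0

/-- **Row CHN**: a chain of differences of consecutive vectors. -/
def CHN : Prop :=
  ∀ (V : Type) (L : List (Sym2 V → ZMod 2)) (s : Sym2 V → ZMod 2),
    ∃ Γ : List (Sym2 V → ZMod 2),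
      (∀ g ∈ L, g + s ∈ Submodule.span (ZMod 2) {γ | γ ∈ Γ}) ∧
      (∀ γ ∈ Γ, ∃ g ∈ L, γ = g + s ∨ ∃ g' ∈ L, γ = g + g') ∧
      ∀ e, cnt e Γ ≤ 2 * cnt e L + if s e ≠ 0 then 1 else 0

/-- **Row KEY**: the general theorem. -/
def KEY : Prop :=
  ∀ (V : Type) [Fintype V] (G : SimpleGraph V) (F : Frame G) (b : ℕ)
    (B : F.ι → Finset (Sym2 V → ZMod 2)),
    (∀ x, ∀ f ∈ B x, f ∈ cycleSpace (piece G (F.bag x))) →
    (∀ x, cycleSpace (piece G (F.bag x)) ≤
      Submodule.span (ZMod 2) (B x : Set (Sym2 V → ZMod 2)) ⊔ cycleSpace (piece G (F.K x))) →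
    (∀ x e, F.Own x e → ply e (B x) ≤ b) →
    basisNumber G ≤ 2 * b + 1

/-- **Row TDF**: the frame of a tree decomposition with clique adhesions. -/
def TDF : Prop :=
  ∀ (V : Type) [Fintype V] (G : SimpleGraph V) (D : TreeDecomp G),
    (∀ x y, D.T.Adj x y → ∀ u v, u ∈ D.bag x → u ∈ D.bag y → v ∈ D.bag x → v ∈ D.bag y → u ≠ v →
      G.Adj u v) →
    ∃ F : Frame G, ∀ x, ∃ y, F.bag x = {v | v ∈ D.bag y}

/-- `r` is a perfect elimination order of `G`: the neighbours of a vertex which come later form a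
clique. -/
def IsPEO {V : Type} (G : SimpleGraph V) (r : V → ℕ) : Prop :=
  Function.Injective r ∧ ∀ v u w, G.Adj v u → G.Adj v w → r v < r u → r v < r w → u ≠ w → G.Adj u w

/-- **Row PEO**: the frame of a chordal graph, with triangles. -/
def PEO : Prop :=
  ∀ (V : Type) [Fintype V] (G : SimpleGraph V) (r : V → ℕ), IsPEO G r →
    ∃ (F : Frame G) (B : F.ι → Finset (Sym2 V → ZMod 2)),
      (∀ x, ∀ f ∈ B x, f ∈ cycleSpace (piece G (F.bag x))) ∧
      (∀ x, cycleSpace (piece G (F.bag x)) ≤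
        Submodule.span (ZMod 2) (B x : Set (Sym2 V → ZMod 2)) ⊔ cycleSpace (piece G (F.K x))) ∧
      ∀ x e, F.Own x e → ply e (B x) ≤ 2

/-- **Row PWP**: a part with at most `k + 1` vertices has basis number at most `k + 1`. -/
def PWP : Prop :=
  ∀ (V : Type) [Fintype V] (G : SimpleGraph V) (s : Finset V) (k : ℕ), s.card ≤ k + 1 →
    basisNumber (piece G {v | v ∈ s}) ≤ k + 1

end Pool.MP_35885f
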